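import Pool.Agent.Lib.helper22.SeqSpace

namespace Pool.Agent.H.MP_0fc439_an

open Finset Filter Topology Pool.Agent.Lib.helper22.SeqSpace

abbrev I : Type := (j : ℕ) × Fin (4 ^ j)

noncomputable def w (n : I) : ℝ := (1 / 4) ^ n.1

theorem w0 (n : I) : 0 < w n := by unfold w; positivity
theorem w1 (n : I) : w n ≤ 1 := pow_le_one₀ (by norm_num) (by norm_num)

noncomputable def T : Tests I where
  G := {g | ∀ i, (1 - w i) * |g i| + ∑ n ∈ g.support, w n * |g n| ≤ 1}
  bd g hg i := by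
    by_cases h : i ∈ g.support
    · linarith [hg i, single_le_sum (f := fun n => w n * |g n|)
        (fun n _ => mul_nonneg (w0 n).le (abs_nonneg _)) h]
    · simp [Finsupp.notMem_support_iff.1 h]
  single_mem i k := by
    rw [Finsupp.support_single _ one_ne_zero, sum_singleton, Finsupp.single_eq_same,
      Finsupp.single_apply]
    split_ifs with h
    · simp [h]
    · simpa using w1 i

theorem scale (B : Finset I) (g : I → ℝ) (r : ℝ) (hr : 0 ≤ r)
    (h : ∀ i ∈ B, (1 - w i) * |g i| + ∑ n ∈ B, w n * |g n| ≤ r) (v : X T) :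
    |∑ n ∈ B, g n * f T n v| ≤ r * ‖v‖ := by
  rcases B.eq_empty_or_nonempty with rfl | ⟨i, hi⟩
  · simp; positivity
  rcases hr.eq_or_lt with rfl | hr
  · rw [sum_eq_zero fun n hn => by
      have := single_le_sum (f := fun n => w n * |g n|)
        (fun n _ => mul_nonneg (w0 n).le (abs_nonneg _)) hn
      rw [abs_nonpos_iff.1 (by linarith [h n hn] : |g n| ≤ 0), zero_mul]]
    simp
  let g' : I →₀ ℝ := Finsupp.onFinset B (fun n => if n ∈ B then g n / r else 0) fun n h => by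
    by_contra hn; exact h (if_neg hn)
  have e : ∀ φ : I → ℝ → ℝ, (∀ n, φ n 0 = 0) →
      ∑ n ∈ g'.support, φ n (g' n) = ∑ n ∈ B, φ n (g n / r) := fun φ hφ =>
    (sum_subset Finsupp.support_onFinset_subset fun n _ hn => by
      rw [Finsupp.notMem_support_iff.1 hn, hφ]).trans (sum_congr rfl fun n hn => by simp [g', hn])
  have := (norm_iff T v _ (norm_nonneg _)).1 le_rfl g' fun k => by
    rw [e (fun n c => w n * |c|) (by simp)]
    simp only [abs_div, abs_of_pos hr, ← mul_div_assoc, ← sum_div]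
    by_cases hk : k ∈ B
    · simp only [g', Finsupp.onFinset_apply, if_pos hk, abs_div, abs_of_pos hr]
      rw [← mul_div_assoc, ← add_div, div_le_one hr]; exact h k hk
    · simp only [g', Finsupp.onFinset_apply, if_neg hk, abs_zero, mul_zero, zero_add]
      rw [div_le_one hr]
      linarith [h i hi, mul_nonneg (sub_nonneg.2 (w1 i)) (abs_nonneg (g i))]
  rw [Finsupp.linearCombination_apply, Finsupp.sum, e (fun n c => c • f T n v) (by simp)] at this
  simp only [smul_eq_mul, div_mul_eq_mul_div, ← sum_div, abs_div, abs_of_pos hr] at this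
  rwa [div_le_iff₀' hr] at this

theorem flat (v : X T) (hv : ‖v‖ ≤ 1) (A : Finset I) (hA : ∀ n ∈ A, |f T n v| ≤ w n / 2)
    (b : I → ℝ) (hb : ∀ n, |b n| ≤ w n / 2) : ‖v + ∑ n ∈ A, b n • x T n‖ ≤ 1 := by
  refine (norm_iff T _ 1 zero_le_one).2 fun g hg => ?_
  have s := sum_sdiff (f := fun n => w n * |g n|) (inter_subset_left (s₁ := g.support) (s₂ := A))
  have p : ∀ B : Finset I, 0 ≤ ∑ n ∈ B, w n * |g n| := fun B =>
    sum_nonneg fun n _ => mul_nonneg (w0 n).le (abs_nonneg _)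
  have h1 := scale (g.support \ (g.support ∩ A)) g (1 - ∑ n ∈ g.support ∩ A, w n * |g n|)
    (by linarith [hg ⟨0, 0⟩, p (g.support \ (g.support ∩ A)),
      mul_nonneg (sub_nonneg.2 (w1 ⟨0, 0⟩)) (abs_nonneg (g ⟨0, 0⟩))])
    (fun i _ => by linarith [hg i]) v
  rw [Finsupp.linearCombination_apply, Finsupp.sum,
    ← sum_sdiff (inter_subset_left (s₁ := g.support) (s₂ := A)),
    sum_congr rfl (g := fun n => g n * f T n v) fun n hn => by
      rw [map_add, f_sum, if_neg (by simp at hn; tauto), add_zero, smul_eq_mul]]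
  refine (abs_add_le _ _).trans ?_
  have h2 : |∑ n ∈ g.support ∩ A, g n • f T n (v + ∑ n ∈ A, b n • x T n)| ≤
      ∑ n ∈ g.support ∩ A, w n * |g n| := (abs_sum_le_sum_abs _ _).trans (sum_le_sum fun n hn => by
    rw [map_add, f_sum, if_pos (mem_inter.1 hn).2, smul_eq_mul, abs_mul, mul_comm]
    exact mul_le_mul_of_nonneg_right ((abs_add_le _ _).trans
      (by linarith [hA n (mem_inter.1 hn).2, hb n])) (abs_nonneg _))
  have h3 : 0 ≤ 1 - ∑ n ∈ g.support ∩ A, w n * |g n| := by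
    linarith [hg ⟨0, 0⟩, p (g.support \ (g.support ∩ A)),
      mul_nonneg (sub_nonneg.2 (w1 ⟨0, 0⟩)) (abs_nonneg (g ⟨0, 0⟩))]
  linarith [mul_le_of_le_one_right h3 hv]

theorem good (v : X T) : ∀ᶠ j in atTop, ∃ A : Finset (Fin (4 ^ j)),
    (∀ i ∈ A, |f T ⟨j, i⟩ v| ≤ w ⟨j, i⟩ / 2) ∧ 1 / 2 ≤ ∑ i ∈ A, w ⟨j, i⟩ := by
  obtain ⟨u, hu, h⟩ := Metric.mem_closure_iff.1 (dense_x T v) (1 / 6) (by norm_num)
  obtain ⟨c, rfl⟩ := Finsupp.mem_span_range_iff_exists_finsupp.1 hu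
  filter_upwards [eventually_gt_atTop (c.support.sup fun n => n.1)] with j hj
  refine ⟨univ.filter fun i => |f T ⟨j, i⟩ v| ≤ w ⟨j, i⟩ / 2, fun i hi => (mem_filter.1 hi).2, ?_⟩
  have t := sum_filter_add_sum_filter_not univ (fun i => |f T ⟨j, i⟩ v| ≤ w ⟨j, i⟩ / 2)
    fun i => w ⟨j, i⟩
  rw [show ∑ i : Fin (4 ^ j), w ⟨j, i⟩ = 1 by simp [w]] at t
  set H := univ.filter fun i => ¬ |f T ⟨j, i⟩ v| ≤ w ⟨j, i⟩ / 2
  have p : 0 ≤ ∑ i ∈ H, w ⟨j, i⟩ := sum_nonneg fun _ _ => (w0 _).le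
  have a : ∀ t : ℝ, |if 0 ≤ t then (1 : ℝ) else -1| = 1 := fun t => by split_ifs <;> simp
  have h1 := scale (H.map ⟨_, sigma_mk_injective⟩) (fun n => if 0 ≤ f T n v then 1 else -1)
    (1 + ∑ i ∈ H, w ⟨j, i⟩) (by positivity) (fun i _ => by
      simp only [a, sum_map, mul_one]
      exact add_le_add (by linarith [w0 i]) le_rfl) (v - c.sum fun n a => a • x T n)
  rw [sum_map] at h1
  have h2 : ∑ i ∈ H, w ⟨j, i⟩ / 2 ≤ _ := (sum_le_sum fun i hi => ?_).trans ((le_abs_self _).trans h1)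
  · rw [← sum_div] at h2
    rw [dist_eq_norm] at h
    nlinarith
  · have := not_le.1 (mem_filter.1 hi).2
    simp only [Function.Embedding.coeFn_mk]
    rw [map_sub, Finsupp.sum, f_sum, if_neg fun h => (le_sup (f := fun n : I => n.1) h).not_gt hj,
      sub_zero]
    split_ifs with h
    · rw [abs_of_nonneg h] at this; linarith
    · rw [abs_of_neg (not_le.1 h)] at this; linarith

def sg (b : Bool) : ℝ := if b then 1 else -1

theorem sg_abs (b : Bool) : |sg b| = 1 := by cases b <;> simp [sg]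

theorem sg_sq (b : Bool) : sg b * sg b = 1 := by cases b <;> simp [sg]

theorem orth {m : ℕ} {i k : Fin m} (h : i ≠ k) : ∑ s : Fin m → Bool, sg (s i) * sg (s k) = 0 :=
  sum_involution (fun s _ => Function.update s i (!s i)) (fun s _ => by
    rw [Function.update_self, Function.update_of_ne h.symm]; cases s i <;> cases s k <;> simp [sg])
    (fun s _ _ e => by simpa using congrFun e i) (fun _ _ => mem_univ _) fun s _ => by simp

theorem khin (j : ℕ) (a : (Fin (4 ^ j) → Bool) → ℝ) (ha : ∀ s, |a s| ≤ 1) :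
    ∑ i, |∑ s, sg (s i) / 2 ^ 4 ^ j * a s| ≤ 2 ^ j := by
  choose ε h1 h2 using fun i => (show ∃ e : ℝ, e * e = 1 ∧ |∑ s, sg (s i) / 2 ^ 4 ^ j * a s| =
      e * ∑ s, sg (s i) / 2 ^ 4 ^ j * a s from
    (abs_choice _).elim (fun h => ⟨1, by simp, by rw [h, one_mul]⟩)
      fun h => ⟨-1, by simp, by rw [h, neg_one_mul]⟩)
  have e : ∑ s : Fin (4 ^ j) → Bool, (∑ i, ε i * sg (s i)) ^ 2 = 2 ^ 4 ^ j * (2 ^ j) ^ 2 := by
    simp only [sq, sum_mul_sum]
    rw [sum_comm, sum_congr rfl (g := fun _ => (2 : ℝ) ^ 4 ^ j) fun i _ => ?_]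
    · simp [← mul_pow, mul_comm]; norm_num
    · rw [sum_comm, sum_eq_single i fun k _ hk => ?_, sum_congr rfl (g := fun _ => (1 : ℝ))]
      · simp
      · exact fun s _ => by rw [mul_mul_mul_comm, h1, sg_sq, mul_one]
      · simp
      · simp only [mul_mul_mul_comm (ε i), ← mul_sum, orth hk.symm, mul_zero]
  simp only [h2, mul_sum]
  rw [sum_comm]
  have p : (0 : ℝ) < 2 ^ j := by positivity
  refine (sum_le_sum (g := fun s => ((∑ i, ε i * sg (s i)) ^ 2 / 2 ^ j + 2 ^ j) / 2 / 2 ^ 4 ^ j)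
    fun s _ => ?_).trans_eq ?_
  · rw [show ∑ i, ε i * (sg (s i) / 2 ^ 4 ^ j * a s) = (∑ i, ε i * sg (s i)) * a s / 2 ^ 4 ^ j by
      rw [sum_mul, sum_div]; exact sum_congr rfl fun i _ => by ring]
    gcongr
    generalize ∑ i, ε i * sg (s i) = t
    refine (le_abs_self _).trans ?_
    rw [abs_mul, le_div_iff₀ two_pos, div_add' _ _ _ p.ne', le_div_iff₀ p, ← sq_abs t]
    nlinarith [sq_nonneg (|t| - 2 ^ j), mul_le_of_le_one_right (mul_nonneg (abs_nonneg t) p.le) (ha s)]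
  · rw [← sum_div, ← sum_div, sum_add_distrib, ← sum_div, e]
    simp
    field_simp
    norm_num

variable {F : ℕ → Type} [∀ n, NormedAddCommGroup (F n)] [∀ n, NormedSpace ℝ (F n)]

omit [∀ n, NormedSpace ℝ (F n)] in
theorem hs (a : lp F 1) : HasSum (fun k => ‖a k‖) ‖a‖ := by simpa using lp.hasSum_norm (by simp) a

theorem dom (y v : lp F 1) (h1 : ‖y + v‖ ≤ ‖y‖) (h2 : ‖y - v‖ ≤ ‖y‖) (k : ℕ) : ‖v k‖ ≤ ‖y k‖ := by
  have h3 := le_hasSum (((hs (y + v)).add (hs (y - v))).sub ((hs y).mul_left 2)) k fun l _ => by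
    have := norm_add_le (y l + v l) (y l - v l)
    rw [add_add_sub_cancel, ← two_smul ℝ, norm_smul, Real.norm_two] at this
    exact sub_nonneg.2 this
  have h4 := norm_sub_le (y k + v k) (y k - v k)
  rw [add_sub_sub_cancel, ← two_smul ℝ, norm_smul, Real.norm_two] at h4
  change ‖y k + v k‖ + ‖y k - v k‖ - _ ≤ _ at h3
  linarith

theorem main [∀ n, CompleteSpace (F n)] [∀ n, Nontrivial (F n)] : ∃ R : X T →L[ℝ] lp F 1,
    ∀ (S : X T →L[ℝ] lp F 1) (v : X T), ‖v‖ ≤ 1 → ‖S v‖ = ‖S‖ → 1 / 2 ≤ ‖R - S‖ := by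
  obtain ⟨κ, hκ⟩ := Countable.exists_injective_nat ((j : ℕ) × (Fin (4 ^ j) → Bool))
  choose g hg using fun k => exists_norm_eq (F k) zero_le_one
  choose φ φ1 φ2 using fun k => exists_dual_vector ℝ (g k) (by rw [hg]; exact one_ne_zero)
  have φ3 : ∀ k (z : F k), |φ k z| ≤ ‖z‖ := fun k z => by simpa [φ1] using (φ k).le_opNorm z
  let y : I → lp F 1 := fun n => ∑ s, (sg (s n.2) / 2 ^ 4 ^ n.1 : ℝ) • lp.single 1 (κ ⟨n.1, s⟩) (g _)
  have hd : DenseRange (Finsupp.linearCombination ℝ (x T)) := by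
    rw [DenseRange, ← LinearMap.coe_range, Finsupp.range_linearCombination]; exact dense_x T
  have hb : ∀ c, ‖Finsupp.linearCombination ℝ y c‖ ≤ 3 * ‖Finsupp.linearCombination ℝ (x T) c‖ :=
    fun c => by
      obtain ⟨ψ, ψ1, ψ2⟩ := exists_dual_vector'' ℝ (Finsupp.linearCombination ℝ y c)
      have a : ∀ k, |ψ (lp.single 1 k (g k))| ≤ 1 := fun k => by
        simpa [lp.norm_single, hg] using ψ.le_of_opNorm_le ψ1 (lp.single 1 k (g k))
      have e : ∀ n : I, ψ (y n) = ∑ s, sg (s n.2) / 2 ^ 4 ^ n.1 * ψ (lp.single 1 (κ ⟨n.1, s⟩) (g _)) :=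
        fun n => by simp only [y, map_sum, map_smul, smul_eq_mul]
      have b : ∀ n, |ψ (y n)| ≤ 1 := fun n => by
        rw [e]
        refine (abs_sum_le_sum_abs _ _).trans ((sum_le_sum (g := fun _ => (1 / 2 ^ 4 ^ n.1 : ℝ))
          fun s _ => ?_).trans_eq (by simp))
        rw [abs_mul, abs_div, sg_abs, abs_of_pos (by positivity)]
        exact mul_le_of_le_one_right (by positivity) (a _)
      have d : ∑ n ∈ c.support, w n * |ψ (y n)| ≤ 2 := by
        refine (sum_le_sum_of_subset_of_nonneg (t := (range (c.support.sup (·.1) + 1)).sigma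
          fun _ => univ) (fun n hn => mem_sigma.2 ⟨mem_range.2 (Nat.lt_succ_of_le
            (le_sup (f := fun n : I => n.1) hn)), mem_univ _⟩)
          fun n _ _ => mul_nonneg (w0 n).le (abs_nonneg _)).trans ?_
        rw [sum_sigma]
        refine (sum_le_sum fun j _ => ?_).trans (sum_geometric_two_le _)
        simp only [e, w, ← mul_sum]
        refine (mul_le_mul_of_nonneg_left (khin j _ fun s => a _) (by positivity)).trans_eq ?_
        rw [← mul_pow]; norm_num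
      refine le_trans (le_of_eq ?_) ((le_abs_self _).trans (scale c.support (fun n => ψ (y n)) 3
        (by norm_num) (fun i _ => by nlinarith [b i, w0 i, abs_nonneg (ψ (y i))]) _))
      rw [← show ψ _ = ‖_‖ from ψ2, Finsupp.linearCombination_apply, Finsupp.sum, map_sum]
      refine sum_congr rfl fun n hn => ?_
      rw [Finsupp.linearCombination_apply, Finsupp.sum, f_sum, if_pos hn, map_smul, smul_eq_mul,
        mul_comm]
  refine ⟨(Finsupp.linearCombination ℝ y).extendOfNorm (Finsupp.linearCombination ℝ (x T)),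
    fun S v hv h => not_lt.1 fun hl => ?_⟩
  set R := (Finsupp.linearCombination ℝ y).extendOfNorm (Finsupp.linearCombination ℝ (x T))
  have Rx : ∀ n, R (x T n) = y n := fun n => by
    simpa using LinearMap.extendOfNorm_eq hd ⟨3, hb⟩ (Finsupp.single n 1)
  have sum_le : ∀ (z : lp F 1) j, ∑ s, ‖z (κ ⟨j, s⟩)‖ ≤ ‖z‖ := fun z j => by
    rw [← sum_image (s := univ) (g := fun s => κ ⟨j, s⟩) (f := fun k => ‖z k‖)
      fun s _ t _ e => sigma_mk_injective (hκ e)]
    exact sum_le_hasSum _ (fun _ _ => norm_nonneg _) (hs z)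
  have low : ∀ j i, 1 / 2 ≤ ∑ s, |φ _ (S (x T ⟨j, i⟩) (κ ⟨j, s⟩))| := fun j i => by
    have h1 := (sum_le _ j).trans ((R - S).le_opNorm (x T ⟨j, i⟩))
    have h2 : ∀ s, |φ _ (y ⟨j, i⟩ (κ ⟨j, s⟩))| = 1 / 2 ^ 4 ^ j := fun s => by
      simp only [y]
      rw [lp.coeFn_sum, Finset.sum_apply, sum_eq_single s (fun t _ e => by
        rw [lp.coeFn_smul, Pi.smul_apply, lp.single_apply_ne _ _ _
          fun h => e (sigma_mk_injective (hκ h)).symm, smul_zero]) (by simp), lp.coeFn_smul,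
        Pi.smul_apply, lp.single_apply_self, map_smul, φ2, hg, smul_eq_mul, abs_mul, abs_div, sg_abs,
        abs_of_pos (by positivity)]
      simp
    have h3 : ∑ s : Fin (4 ^ j) → Bool, (1 / 2 ^ 4 ^ j : ℝ) ≤ ∑ s, (|φ _ (S (x T ⟨j, i⟩) (κ ⟨j, s⟩))| +
        ‖(R - S) (x T ⟨j, i⟩) (κ ⟨j, s⟩)‖) := sum_le_sum fun s _ => by
      rw [← h2 s, ← Rx, ← sub_le_iff_le_add']
      refine (abs_sub_abs_le_abs_sub _ _).trans ?_
      rw [← map_sub]
      exact φ3 _ _
    rw [sum_add_distrib, show ∑ s : Fin (4 ^ j) → Bool, (1 / 2 ^ 4 ^ j : ℝ) = 1 by simp] at h3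
    rw [norm_x] at h1
    linarith
  have lim := ((hs (S v)).summable.comp_injective hκ).sigma.tendsto_atTop_zero
  obtain ⟨j, ⟨A, hA, h1⟩, h2⟩ := ((good v).and (lim.eventually
    (gt_mem_nhds (show (0 : ℝ) < 1 / 8 by norm_num)))).exists
  rw [tsum_fintype] at h2
  have key : ∀ k, ∑ i ∈ A, w ⟨j, i⟩ / 2 * |φ k (S (x T ⟨j, i⟩) k)| ≤ ‖S v k‖ := fun k => by
    let b : I → ℝ := fun n => if 0 ≤ φ k (S (x T n) k) then w n / 2 else -(w n / 2)
    have b1 : ∀ n, |b n| ≤ w n / 2 := fun n => by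
      simp only [b]
      split_ifs <;> simp [abs_of_pos (half_pos (w0 n))]
    have A1 : ∀ n ∈ (A.map ⟨Sigma.mk j, sigma_mk_injective⟩ : Finset I), |f T n v| ≤ w n / 2 := fun n hn => by
      obtain ⟨i, hi, rfl⟩ := mem_map.1 hn
      exact hA i hi
    have f1 := flat v hv _ A1 b b1
    have f2 := flat v hv _ A1 (fun n => -b n) (by simpa using b1)
    simp only [neg_smul, sum_neg_distrib, ← sub_eq_add_neg] at f2
    refine le_trans ?_ ((le_abs_self _).trans ((φ3 k _).trans (dom (S v) (S _)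
      (by rw [← map_add, h]; exact S.unit_le_opNorm _ f1)
      (by rw [← map_sub, h]; exact S.unit_le_opNorm _ f2) k)))
    rw [map_sum, lp.coeFn_sum, Finset.sum_apply, map_sum, sum_map]
    refine sum_le_sum fun i _ => le_of_eq ?_
    simp only [Function.Embedding.coeFn_mk, map_smul, lp.coeFn_smul, Pi.smul_apply, smul_eq_mul, b]
    split_ifs with h
    · rw [abs_of_nonneg h]
    · rw [abs_of_neg (not_le.1 h)]; ring
  have h3 := sum_le_sum fun (s : Fin (4 ^ j) → Bool) (_ : s ∈ univ) => key (κ ⟨j, s⟩)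
  rw [sum_comm] at h3
  have h4 : ∑ i ∈ A, w ⟨j, i⟩ / 2 * (1 / 2) ≤ _ := (sum_le_sum fun i _ => by
    rw [← mul_sum]; exact mul_le_mul_of_nonneg_left (low j i) (half_pos (w0 _)).le).trans h3
  rw [← sum_mul, ← sum_div] at h4
  simp only [Function.comp_apply] at h2
  linarith

def X' : Type := X T
noncomputable instance : NormedAddCommGroup X' := inferInstanceAs (NormedAddCommGroup (X T))
noncomputable instance : NormedSpace ℝ X' := inferInstanceAs (NormedSpace ℝ (X T))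
instance : CompleteSpace X' := inferInstanceAs (CompleteSpace (X T))

theorem nd [∀ n, CompleteSpace (F n)] [∀ n, Nontrivial (F n)] :
    ¬ Dense {S : X' →L[ℝ] lp F 1 | ∃ v : X', ‖v‖ ≤ 1 ∧ ‖S v‖ = ‖S‖} := fun h => by
  obtain ⟨R, hR⟩ : ∃ R : X' →L[ℝ] lp F 1, ∀ (S : X' →L[ℝ] lp F 1) (v : X'), ‖v‖ ≤ 1 →
    ‖S v‖ = ‖S‖ → 1 / 2 ≤ ‖R - S‖ := main
  obtain ⟨S, ⟨v, h1, h2⟩, h3⟩ := Metric.mem_closure_iff.1 (h R) (1 / 2) (by norm_num)
  exact (hR S v h1 h2).not_gt ((dist_eq_norm R S).symm.trans_lt h3)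

end Pool.Agent.H.MP_0fc439_an
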